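import Mathlib
import Pool.Graph.R_seed8.Results.MP_20d613_pr.ExclusionVsOrdinary
import Pool.Agent.KS6_99.EX.Main

/-!
# Exceptional times of local dynamics and of ordinary dynamical percolation

`Dynamics I J` are the dynamics on `{0,1}^I` in which finite blocks of bits are rearranged by
arbitrary permutations of their local configurations (the dynamics need not be reversible).
The theorem compares the exceptional times of a null set under such a dynamics with the exceptional
times under ordinary dynamical percolation, and under every other local dynamics in which each bit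
is flipped at rate at least `ε`.  The exclusion dynamics of the problem is the special case in which
the moves exchange two bits.
-/

set_option autoImplicit false

open MeasureTheory Filter Topology
open Pool.Agent.Results.MP_20d613_pr.ExclusionVsOrdinary
open Pool.Agent.KS6_99.EX

namespace Pool.Agent.Results.MP_20d613_pr.LocalDynamics

lemma exchange_involutive {I : Type*} [DecidableEq I] (x y : I) :
    Function.Involutive (exchange x y : (I → Bool) → (I → Bool)) := by
  intro ω
  funext v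
  unfold exchange
  rw [Equiv.swap_apply_self]

/-- The exclusion dynamics with kernel `P` as a local dynamics: for every ordered pair `(x, y)` the
values at `x` and `y` are exchanged at rate `P(x, y) / 2`. -/
noncomputable def exclusion {I : Type*} [DecidableEq I] {P : I → I → ℝ} (hP : IsKernel P) :
    Dynamics I (I × I) where
  block p := {p.1, p.2}
  rate p := P p.1 p.2 / 2
  move p := Function.Involutive.toPerm _ (exchange_involutive p.1 p.2)
  rate_nonneg p := div_nonneg (hP.nonneg _ _) (by norm_num)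
  off := by
    intro p ω x hx
    rw [Finset.mem_insert, Finset.mem_singleton, not_or] at hx
    show ω (Equiv.swap p.1 p.2 x) = ω x
    rw [Equiv.swap_apply_of_ne_of_ne hx.1 hx.2]
  loc := by
    intro p ω ω' h x hx
    show ω (Equiv.swap p.1 p.2 x) = ω' (Equiv.swap p.1 p.2 x)
    apply h
    rw [Finset.mem_insert, Finset.mem_singleton] at hx ⊢
    rcases hx with hx | hx
    · rw [hx, Equiv.swap_apply_left]; exact Or.inr rfl
    · rw [hx, Equiv.swap_apply_right]; exact Or.inl rfl

lemma exclusion_generator {I : Type*} [DecidableEq I] {P : I → I → ℝ} (hP : IsKernel P) :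
    (exclusion hP).generator = exclusionGen P := by
  funext f ω
  unfold Dynamics.generator exclusionGen
  rw [← tsum_mul_left]
  apply tsum_congr
  intro p
  show P p.1 p.2 / 2 * (f (exchange p.1 p.2 ω) - f ω) = _
  ring

lemma sum_fst_le {I : Type*} [DecidableEq I] {P : I → I → ℝ} (hP : IsKernel P) {M : ℝ}
    (hM0 : 0 ≤ M) (hM : ∀ x, ∑' y, P x y ≤ M) (x : I) (F : Finset (I × I)) :
    ∑ p ∈ F, (if p.1 = x then P p.1 p.2 else 0) ≤ M := by
  have hsum : ∀ x, Summable (P x) := fun x => by
    obtain ⟨M', hM'⟩ := hP.bound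
    exact (hM' x).1
  have hnn : ∀ p : I × I, 0 ≤ (if p.1 = x then P p.1 p.2 else 0) := fun p => by
    split_ifs
    · exact hP.nonneg _ _
    · exact le_rfl
  have h1 : F ⊆ F.image Prod.fst ×ˢ F.image Prod.snd := fun p hp =>
    Finset.mem_product.2 ⟨Finset.mem_image_of_mem _ hp, Finset.mem_image_of_mem _ hp⟩
  refine (Finset.sum_le_sum_of_subset_of_nonneg h1 fun p _ _ => hnn p).trans ?_
  rw [Finset.sum_product]
  have h2 : ∀ a ∈ F.image Prod.fst, ∑ b ∈ F.image Prod.snd, (if a = x then P a b else 0)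
      = if a = x then ∑ b ∈ F.image Prod.snd, P x b else 0 := by
    intro a _
    by_cases ha : a = x
    · subst ha; simp
    · simp [ha]
  rw [Finset.sum_congr rfl h2, Finset.sum_ite_eq']
  split_ifs
  · exact ((hsum x).sum_le_tsum _ fun y _ => hP.nonneg x y).trans (hM x)
  · exact hM0

lemma sum_snd_le {I : Type*} [DecidableEq I] {P : I → I → ℝ} (hP : IsKernel P) {M : ℝ}
    (hM0 : 0 ≤ M) (hM : ∀ x, ∑' y, P x y ≤ M) (x : I) (F : Finset (I × I)) :
    ∑ p ∈ F, (if p.2 = x then P p.1 p.2 else 0) ≤ M := by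
  have h1 := sum_fst_le hP hM0 hM x (F.map (Equiv.prodComm I I).toEmbedding)
  rw [Finset.sum_map] at h1
  refine le_trans (le_of_eq ?_) h1
  apply Finset.sum_congr rfl
  intro p _
  show (if p.2 = x then P p.1 p.2 else 0) = if p.2 = x then P p.2 p.1 else 0
  rw [hP.symm p.1 p.2]

lemma exclusion_bounded {I : Type*} [DecidableEq I] {P : I → I → ℝ} (hP : IsKernel P) {M : ℝ}
    (hM0 : 0 ≤ M) (hM : ∀ x, ∑' y, P x y ≤ M) : (exclusion hP).BoundedBy (2 * M) := by
  intro x F
  have h1 := sum_fst_le hP hM0 hM x F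
  have h2 := sum_snd_le hP hM0 hM x F
  have h3 : ∑ p ∈ F, (if x ∈ (exclusion hP).block p then
      (exclusion hP).rate p * ((exclusion hP).block p).card else 0) ≤
      ∑ p ∈ F, ((if p.1 = x then P p.1 p.2 else 0) + (if p.2 = x then P p.1 p.2 else 0)) := by
    apply Finset.sum_le_sum
    intro p _
    have hp := hP.nonneg p.1 p.2
    show (if x ∈ ({p.1, p.2} : Finset I) then P p.1 p.2 / 2 * (({p.1, p.2} : Finset I).card : ℝ)
      else 0) ≤ _
    have hcard : (({p.1, p.2} : Finset I).card : ℝ) ≤ 2 := by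
      exact_mod_cast Finset.card_le_two
    by_cases hx : x ∈ ({p.1, p.2} : Finset I)
    · rw [if_pos hx]
      have h4 : P p.1 p.2 / 2 * (({p.1, p.2} : Finset I).card : ℝ) ≤ P p.1 p.2 := by
        have := mul_le_mul_of_nonneg_left hcard (by linarith : 0 ≤ P p.1 p.2 / 2)
        linarith
      rw [Finset.mem_insert, Finset.mem_singleton] at hx
      rcases hx with hx | hx
      · rw [if_pos hx.symm]
        have : 0 ≤ (if p.2 = x then P p.1 p.2 else 0) := by split_ifs <;> linarith
        linarith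
      · rw [if_pos hx.symm]
        have : 0 ≤ (if p.1 = x then P p.1 p.2 else 0) := by split_ifs <;> linarith
        linarith
    · rw [if_neg hx]
      have : 0 ≤ (if p.1 = x then P p.1 p.2 else 0) := by split_ifs <;> linarith
      have : 0 ≤ (if p.2 = x then P p.1 p.2 else 0) := by split_ifs <;> linarith
      linarith
  rw [Finset.sum_add_distrib] at h3
  linarith

lemma exclusion_solution {I Ω : Type*} [DecidableEq I] [MeasurableSpace Ω] {P : I → I → ℝ}
    (hP : IsKernel P) {μ : Measure Ω} {X : ℝ → Ω → I → Bool} (hX : IsExclusionDynamics P μ X) :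
    IsSolution (exclusion hP) μ X where
  measurable := hX.measurable
  cadlag := hX.cadlag
  martingale := by
    intro f hf s t h0 hst E hE
    rw [exclusion_generator]
    exact hX.martingale f hf s t h0 hst E hE

lemma domBy_of_le {I Ω : Type*} [DecidableEq I] [MeasurableSpace Ω] {μ : Measure Ω}
    [IsFiniteMeasure μ] {X : ℝ → Ω → I → Bool} (hm : Measurable (X 0)) {K₀ : ℝ} (hK₀ : 0 ≤ K₀)
    (h : μ.map (X 0) ≤ ENNReal.ofReal K₀ • fairCoins I) : DomBy μ X K₀ 0 := by
  intro Λ C hC
  have hCm : MeasurableSet {ω : I → Bool | C ω} := measurableSet_setOfPred.2 hC.measurable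
  have h1 := h {ω | C ω}
  rw [Measure.map_apply hm hCm, Measure.smul_apply, smul_eq_mul] at h1
  have h3 := ENNReal.toReal_mono
    (ENNReal.mul_ne_top ENNReal.ofReal_ne_top (measure_ne_top _ _)) h1
  rw [ENNReal.toReal_mul, ENNReal.toReal_ofReal hK₀] at h3
  exact h3

lemma domBy_of_eq {I Ω : Type*} [DecidableEq I] [MeasurableSpace Ω] {μ : Measure Ω}
    [IsFiniteMeasure μ] {X : ℝ → Ω → I → Bool} (hm : Measurable (X 0))
    (h : μ.map (X 0) = fairCoins I) : DomBy μ X 1 0 :=
  domBy_of_le hm zero_le_one (by rw [h]; simp)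

lemma lowBy_of_eq {I Ω : Type*} [DecidableEq I] [MeasurableSpace Ω] {μ : Measure Ω}
    [IsFiniteMeasure μ] {X : ℝ → Ω → I → Bool} (hm : Measurable (X 0))
    (h : μ.map (X 0) = fairCoins I) : LowBy μ X 1 0 := by
  intro Λ f _ _
  have h1 := fair_integral Λ f
  rw [← h, integral_map hm.aemeasurable (depOn_comp_res Λ f).measurable.aestronglyMeasurable] at h1
  rw [h1]
  linarith

lemma toR {Ω : Type*} [MeasurableSpace Ω] {μ : Measure Ω} {S : Set Ω} {b : ℝ} (hb : 0 ≤ b)
    (h : μ S ≤ ENNReal.ofReal b) : μ.real S ≤ b := by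
  have := ENNReal.toReal_mono ENNReal.ofReal_ne_top h
  rwa [ENNReal.toReal_ofReal hb] at this

lemma ordQ {I J Ω Ω' : Type*} [Countable I] [DecidableEq I] [Countable J]
    [MeasurableSpace Ω] [MeasurableSpace Ω'] (μ : Measure Ω) [IsProbabilityMeasure μ]
    (μ' : Measure Ω') [IsProbabilityMeasure μ'] (X : ℝ → Ω → I → Bool) (Y : ℝ → Ω' → I → Bool)
    (A : Set (I → Bool)) (hA : MeasurableSet A) (hA0 : fairCoins I A = 0)
    (D : Dynamics I J) (N : ℝ) (hN0 : 0 ≤ N) (hN : D.BoundedBy N) (hX : IsSolution D μ X)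
    (hY : IsDynamicalPercolation μ' Y) :
    (μ.map (X 0) ≪ fairCoins I → HasExceptionalTimes μ X A → HasExceptionalTimes μ' Y A) ∧
      (∀ K₀ : ℝ, 0 ≤ K₀ → μ.map (X 0) ≤ ENNReal.ofReal K₀ • fairCoins I → ∀ T R : ℕ,
          μ.real {w | ∃ t : ℝ, 0 ≤ t ∧ t ≤ T ∧ X t w ∈ A} ≤
            K₀ * Real.exp ((2 * N + 1) * (T + 1)) * (1 + 2 * N) *
              (μ'.real {w | ∃ t : ℝ, 0 ≤ t ∧ t ≤ (R : ℝ) + 1 ∧ Y t w ∈ A} +
                1 / (1 + (2 * N + 1) * (R + 1)))) := by
  have hμ : μ.real Set.univ ≤ 1 := measureReal_le_one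
  refine ⟨fun hac h => transfer_ord hN hN0 hμ hX hY hac hA hA0 h, ?_⟩
  intro K₀ hK₀ hle T R
  have h1 := quant_ord hN hN0 hμ hX hY hK₀ (domBy_of_le (hX.measurable 0 le_rfl) hK₀ hle) T R
    hA hA0
  refine (toR (by positivity) h1).trans (le_of_eq ?_)
  ring

/-- **Transfer of exceptional times.**  Let `X` and `Y` be processes on `{0,1}^I`, `I` countable,
and let `A` be a Borel set of configurations with probability `0` under fair coin flips.

(1) `X` and `Y` are local dynamics (`X` arbitrary, `Y` flips each bit at rate at least `ε`): if the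
law of `X 0` is absolutely continuous with respect to fair coin flips, and these with respect to the
law of `Y 0`, then exceptional times of `A` under `X` give exceptional times under `Y`; there is an
explicit inequality between the hitting probabilities if the law of `X 0` has density at most `K₀`
and `Y 0` consists of fair coin flips.

(2) Two local dynamics which flip each bit at rate at least `ε` and start from laws which are
equivalent to fair coin flips have the same events with exceptional times.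

(3) The same as (1) if `Y` is ordinary dynamical percolation, given by its finite-dimensional
distributions.

(4) The question Q1: `X` is the exclusion dynamics with a symmetric kernel and `Y` is ordinary
dynamical percolation; with an explicit inequality. -/
theorem result {I J J' Ω Ω' : Type*} [Countable I] [DecidableEq I] [Countable J] [Countable J']
    [MeasurableSpace Ω] [MeasurableSpace Ω'] (μ : Measure Ω) [IsProbabilityMeasure μ]
    (μ' : Measure Ω') [IsProbabilityMeasure μ'] (X : ℝ → Ω → I → Bool) (Y : ℝ → Ω' → I → Bool)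
    (A : Set (I → Bool)) (hA : MeasurableSet A) (hA0 : fairCoins I A = 0) :
    (∀ (D : Dynamics I J) (D' : Dynamics I J') (N ε : ℝ), 0 ≤ N → D.BoundedBy N →
      D'.BoundedBy N → 0 < ε → (∀ x, ∃ j, (∀ ω, D'.move j ω = flipAt x ω) ∧ ε ≤ D'.rate j) →
      IsSolution D μ X → IsSolution D' μ' Y →
      (μ.map (X 0) ≪ fairCoins I → fairCoins I ≪ μ'.map (Y 0) →
        HasExceptionalTimes μ X A → HasExceptionalTimes μ' Y A) ∧
      (∀ K₀ : ℝ, 0 ≤ K₀ → μ.map (X 0) ≤ ENNReal.ofReal K₀ • fairCoins I →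
        μ'.map (Y 0) = fairCoins I → ∀ T R : ℕ,
          μ.real {w | ∃ t : ℝ, 0 ≤ t ∧ t ≤ T ∧ X t w ∈ A} ≤
            K₀ * Real.exp ((2 * N + 1) * (T + 1)) * (1 + N / ε) *
              (μ'.real {w | ∃ t : ℝ, 0 ≤ t ∧ t ≤ (R : ℝ) + 1 ∧ Y t w ∈ A} +
                1 / (1 + (2 * N + 1) * (R + 1))))) ∧
    (∀ (D : Dynamics I J) (D' : Dynamics I J') (N ε : ℝ), 0 ≤ N → D.BoundedBy N →
      D'.BoundedBy N → 0 < ε → (∀ x, ∃ j, (∀ ω, D.move j ω = flipAt x ω) ∧ ε ≤ D.rate j) →
      (∀ x, ∃ j, (∀ ω, D'.move j ω = flipAt x ω) ∧ ε ≤ D'.rate j) →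
      IsSolution D μ X → IsSolution D' μ' Y → μ.map (X 0) ≪ fairCoins I →
      fairCoins I ≪ μ.map (X 0) → μ'.map (Y 0) ≪ fairCoins I → fairCoins I ≪ μ'.map (Y 0) →
      (HasExceptionalTimes μ X A ↔ HasExceptionalTimes μ' Y A)) ∧
    (∀ (D : Dynamics I J) (N : ℝ), 0 ≤ N → D.BoundedBy N → IsSolution D μ X →
      IsDynamicalPercolation μ' Y →
      (μ.map (X 0) ≪ fairCoins I → HasExceptionalTimes μ X A → HasExceptionalTimes μ' Y A) ∧
      (∀ K₀ : ℝ, 0 ≤ K₀ → μ.map (X 0) ≤ ENNReal.ofReal K₀ • fairCoins I → ∀ T R : ℕ,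
          μ.real {w | ∃ t : ℝ, 0 ≤ t ∧ t ≤ T ∧ X t w ∈ A} ≤
            K₀ * Real.exp ((2 * N + 1) * (T + 1)) * (1 + 2 * N) *
              (μ'.real {w | ∃ t : ℝ, 0 ≤ t ∧ t ≤ (R : ℝ) + 1 ∧ Y t w ∈ A} +
                1 / (1 + (2 * N + 1) * (R + 1))))) ∧
    (∀ (P : I → I → ℝ), IsKernel P → IsExclusionDynamics P μ X → IsDynamicalPercolation μ' Y →
      (HasExceptionalTimes μ X A → HasExceptionalTimes μ' Y A) ∧
      (∀ M : ℝ, 0 ≤ M → (∀ x, ∑' y, P x y ≤ M) → ∀ T R : ℕ,
          μ.real {w | ∃ t : ℝ, 0 ≤ t ∧ t ≤ T ∧ X t w ∈ A} ≤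
            Real.exp ((4 * M + 1) * (T + 1)) * (1 + 4 * M) *
              (μ'.real {w | ∃ t : ℝ, 0 ≤ t ∧ t ≤ (R : ℝ) + 1 ∧ Y t w ∈ A} +
                1 / (1 + (4 * M + 1) * (R + 1))))) := by
  have hμ : μ.real Set.univ ≤ 1 := measureReal_le_one
  have hμ' : μ'.real Set.univ ≤ 1 := measureReal_le_one
  refine ⟨?_, ?_, fun D N => ordQ μ μ' X Y A hA hA0 D N, ?_⟩
  · intro D D' N ε hN0 hN hN' hε hflip hX hY
    refine ⟨fun hac hac' h => transfer hN hN' hN0 hε hflip hμ hμ' hX hY hac hac' hA hA0 h, ?_⟩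
    intro K₀ hK₀ hle heq T R
    have hYm := hY.measurable 0 le_rfl
    have h1 := quant hN hN' hN0 hε hflip hμ hμ' hX hY hK₀
      (domBy_of_le (hX.measurable 0 le_rfl) hK₀ hle) zero_lt_one (lowBy_of_eq hYm heq)
      (domBy_of_eq hYm heq) T R hA hA0
    refine (toR (by positivity) h1).trans (le_of_eq ?_)
    rw [div_one, mul_zero, add_zero]
    ring
  · intro D D' N ε hN0 hN hN' hε hflip hflip' hX hY h1 h2 h3 h4
    exact ⟨fun h => transfer hN hN' hN0 hε hflip' hμ hμ' hX hY h1 h4 hA hA0 h,
      fun h => transfer hN' hN hN0 hε hflip hμ' hμ hY hX h3 h2 hA hA0 h⟩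
  · intro P hP hX hY
    have hXs := exclusion_solution hP hX
    have hle : μ.map (X 0) ≤ ENNReal.ofReal 1 • fairCoins I := by rw [hX.initial]; simp
    refine ⟨?_, ?_⟩
    · obtain ⟨M₀, hM₀⟩ := hP.bound
      have hb := exclusion_bounded hP (le_max_right M₀ 0)
        (fun x => (hM₀ x).2.trans (le_max_left _ _))
      exact (ordQ μ μ' X Y A hA hA0 (exclusion hP) _ (mul_nonneg zero_le_two (le_max_right M₀ 0)) hb hXs hY).1
        (by rw [hX.initial])
    · intro M hM0 hM T R
      have hb := exclusion_bounded hP hM0 hM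
      have h1 := (ordQ μ μ' X Y A hA hA0 (exclusion hP) _ (mul_nonneg zero_le_two hM0) hb hXs hY).2 1
        zero_le_one hle T R
      have e1 : 2 * (2 * M) = 4 * M := by ring
      rw [e1, one_mul] at h1
      exact h1

end Pool.Agent.Results.MP_20d613_pr.LocalDynamics
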